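import Pool.Agent.Helper58.KB.Defs
import Pool.Agent.Helper84.Dbl.Upper
/-!
# Basic facts on the triakis tetrahedra (block G)
-/
set_option autoImplicit false
namespace Pool.Agent.Helper58.KB
open MeasureTheory
open scoped Pointwise ENNReal
open Pool.Agent.Helper84.Tet (E3 IsConvexBody tetrahedron mem_tetrahedron TT vol_TT_le)

theorem triakis_convex (Q : ℝ) : Convex ℝ (triakis Q) := by
  intro x hx y hy a b ha hb hab
  obtain ⟨⟨h1, h2, h3⟩, ⟨h4, h5, h6⟩, ⟨h7, h8, h9⟩, ⟨h10, h11, h12⟩⟩ := hx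
  obtain ⟨⟨g1, g2, g3⟩, ⟨g4, g5, g6⟩, ⟨g7, g8, g9⟩, ⟨g10, g11, g12⟩⟩ := hy
  obtain rfl : b = 1 - a := by linarith
  show InK Q (Q + 1) ((a • x + (1 - a) • y) 0) ((a • x + (1 - a) • y) 1)
    ((a • x + (1 - a) • y) 2)
  simp only [PiLp.add_apply, PiLp.smul_apply, smul_eq_mul]
  refine ⟨⟨?_, ?_, ?_⟩, ⟨?_, ?_, ?_⟩, ⟨?_, ?_, ?_⟩, ⟨?_, ?_, ?_⟩⟩
  · linarith [mul_le_mul_of_nonneg_left h1 ha, mul_le_mul_of_nonneg_left g1 hb]
  · linarith [mul_le_mul_of_nonneg_left h2 ha, mul_le_mul_of_nonneg_left g2 hb]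
  · linarith [mul_le_mul_of_nonneg_left h3 ha, mul_le_mul_of_nonneg_left g3 hb]
  · linarith [mul_le_mul_of_nonneg_left h4 ha, mul_le_mul_of_nonneg_left g4 hb]
  · linarith [mul_le_mul_of_nonneg_left h5 ha, mul_le_mul_of_nonneg_left g5 hb]
  · linarith [mul_le_mul_of_nonneg_left h6 ha, mul_le_mul_of_nonneg_left g6 hb]
  · linarith [mul_le_mul_of_nonneg_left h7 ha, mul_le_mul_of_nonneg_left g7 hb]
  · linarith [mul_le_mul_of_nonneg_left h8 ha, mul_le_mul_of_nonneg_left g8 hb]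
  · linarith [mul_le_mul_of_nonneg_left h9 ha, mul_le_mul_of_nonneg_left g9 hb]
  · linarith [mul_le_mul_of_nonneg_left h10 ha, mul_le_mul_of_nonneg_left g10 hb]
  · linarith [mul_le_mul_of_nonneg_left h11 ha, mul_le_mul_of_nonneg_left g11 hb]
  · linarith [mul_le_mul_of_nonneg_left h12 ha, mul_le_mul_of_nonneg_left g12 hb]

theorem isClosed_triakis (Q : ℝ) : IsClosed (triakis Q) := by
  unfold triakis InK
  repeat' apply IsClosed.and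
  all_goals exact isClosed_le (by fun_prop) (by fun_prop)

/-- The triakis tetrahedron lies in the cube `[-1,1]^3`. -/
theorem InK_box {Q x y z : ℝ} (hQ : 1 < Q) (h : InK Q (Q + 1) x y z) :
    (-1 ≤ x ∧ x ≤ 1) ∧ (-1 ≤ y ∧ y ≤ 1) ∧ (-1 ≤ z ∧ z ≤ 1) := by
  obtain ⟨⟨h1, h2, h3⟩, ⟨h4, h5, h6⟩, ⟨h7, h8, h9⟩, ⟨h10, h11, h12⟩⟩ := h
  refine ⟨⟨?_, ?_⟩, ⟨?_, ?_⟩, ⟨?_, ?_⟩⟩ <;> by_contra hc <;> push Not at hc <;> nlinarith

theorem triakis_subset_closedBall {Q : ℝ} (hQ : 1 < Q) :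
    triakis Q ⊆ Metric.closedBall (0 : E3) 2 := by
  intro v hv
  obtain ⟨⟨a1, a2⟩, ⟨b1, b2⟩, ⟨c1, c2⟩⟩ := InK_box hQ hv
  rw [mem_closedBall_zero_iff, EuclideanSpace.norm_eq, Fin.sum_univ_three,
    Real.sqrt_le_left (by norm_num)]
  simp only [Real.norm_eq_abs, sq_abs]
  nlinarith

theorem isOpen_InKS (Q : ℝ) : IsOpen {v : E3 |
    ((Q * (-v 0 - v 1 - v 2) - v 0 < Q + 1 ∧ Q * (-v 0 - v 1 - v 2) - v 1 < Q + 1 ∧
      Q * (-v 0 - v 1 - v 2) - v 2 < Q + 1) ∧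
    (Q * (-v 0 + v 1 + v 2) - v 0 < Q + 1 ∧ Q * (-v 0 + v 1 + v 2) + v 1 < Q + 1 ∧
      Q * (-v 0 + v 1 + v 2) + v 2 < Q + 1) ∧
    (Q * (v 0 - v 1 + v 2) + v 0 < Q + 1 ∧ Q * (v 0 - v 1 + v 2) - v 1 < Q + 1 ∧
      Q * (v 0 - v 1 + v 2) + v 2 < Q + 1) ∧
    (Q * (v 0 + v 1 - v 2) + v 0 < Q + 1 ∧ Q * (v 0 + v 1 - v 2) + v 1 < Q + 1 ∧
      Q * (v 0 + v 1 - v 2) - v 2 < Q + 1))} := by
  repeat' apply IsOpen.and
  all_goals exact isOpen_lt (by fun_prop) (by fun_prop)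

theorem interior_of_InKS {Q : ℝ} {v : E3} (h :
    ((Q * (-v 0 - v 1 - v 2) - v 0 < Q + 1 ∧ Q * (-v 0 - v 1 - v 2) - v 1 < Q + 1 ∧
      Q * (-v 0 - v 1 - v 2) - v 2 < Q + 1) ∧
    (Q * (-v 0 + v 1 + v 2) - v 0 < Q + 1 ∧ Q * (-v 0 + v 1 + v 2) + v 1 < Q + 1 ∧
      Q * (-v 0 + v 1 + v 2) + v 2 < Q + 1) ∧
    (Q * (v 0 - v 1 + v 2) + v 0 < Q + 1 ∧ Q * (v 0 - v 1 + v 2) - v 1 < Q + 1 ∧
      Q * (v 0 - v 1 + v 2) + v 2 < Q + 1) ∧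
    (Q * (v 0 + v 1 - v 2) + v 0 < Q + 1 ∧ Q * (v 0 + v 1 - v 2) + v 1 < Q + 1 ∧
      Q * (v 0 + v 1 - v 2) - v 2 < Q + 1))) : v ∈ interior (triakis Q) := by
  refine interior_maximal ?_ (isOpen_InKS Q) h
  rintro w ⟨⟨h1, h2, h3⟩, ⟨h4, h5, h6⟩, ⟨h7, h8, h9⟩, ⟨h10, h11, h12⟩⟩
  exact ⟨⟨h1.le, h2.le, h3.le⟩, ⟨h4.le, h5.le, h6.le⟩, ⟨h7.le, h8.le, h9.le⟩,
    ⟨h10.le, h11.le, h12.le⟩⟩

theorem triakis_convexBody {Q : ℝ} (hQ : 1 < Q) : IsConvexBody (triakis Q) where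
  convex := triakis_convex Q
  isCompact := Metric.isCompact_of_isClosed_isBounded (isClosed_triakis Q)
    ((Metric.isBounded_iff_subset_closedBall (0 : E3)).2 ⟨2, triakis_subset_closedBall hQ⟩)
  interior_nonempty := by
    refine ⟨0, interior_of_InKS ?_⟩
    have h : (0 : ℝ) < Q + 1 := by linarith
    simp [h]

theorem tetrahedron_subset_triakis {Q : ℝ} (hQ : 1 < Q) : tetrahedron ⊆ triakis Q := by
  apply convexHull_min _ (triakis_convex Q)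
  intro v hv
  simp only [Set.mem_insert_iff, Set.mem_singleton_iff] at hv
  rcases hv with rfl | rfl | rfl | rfl <;>
    refine ⟨⟨?_, ?_, ?_⟩, ⟨?_, ?_, ?_⟩, ⟨?_, ?_, ?_⟩, ⟨?_, ?_, ?_⟩⟩ <;> simp <;> linarith

theorem triakis_subset_smul {Q : ℝ} (hQ : 1 < Q) :
    triakis Q ⊆ ((3 * Q + 3) / (3 * Q + 1) : ℝ) • tetrahedron := by
  have h0 : (0 : ℝ) < (3 * Q + 3) / (3 * Q + 1) := div_pos (by linarith) (by linarith)
  rintro v ⟨⟨h1, h2, h3⟩, ⟨h4, h5, h6⟩, ⟨h7, h8, h9⟩, ⟨h10, h11, h12⟩⟩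
  rw [Set.mem_smul_set_iff_inv_smul_mem₀ h0.ne']
  have key : ∀ t : ℝ, (3 * Q + 1) * t ≤ 3 * (Q + 1) → ((3 * Q + 3) / (3 * Q + 1))⁻¹ * t ≤ 1 := by
    intro t ht
    rw [inv_mul_le_iff₀ h0, mul_one, le_div_iff₀ (by linarith)]
    linarith
  apply mem_tetrahedron
  all_goals simp only [PiLp.smul_apply, smul_eq_mul]
  · have := key (-v 0 - v 1 - v 2) (by linarith)
    linarith
  · have := key (-v 0 + v 1 + v 2) (by linarith)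
    linarith
  · have := key (v 0 - v 1 + v 2) (by linarith)
    linarith
  · have := key (v 0 + v 1 - v 2) (by linarith)
    linarith

end Pool.Agent.Helper58.KB
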