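import Pool.Agent.Helper49.KB.Body
/-!
# The volume of the triakis tetrahedra (block G)
-/
set_option autoImplicit false
namespace Pool.Agent.Helper58.KB
open MeasureTheory
open scoped Pointwise ENNReal
open Pool.Agent.Helper84.Tet

/-- The triakis tetrahedron in coordinates. -/
def triC (Q : ℝ) : Set (Fin 3 → ℝ) := {x | InK Q (Q + 1) (x 0) (x 1) (x 2)}

theorem vol_pyr (Q : ℝ) (hQ : 1 < Q) (S : Set (Fin 3 → ℝ)) (M : Matrix (Fin 3) (Fin 3) ℝ)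
    (b : Fin 3 → ℝ) (hM : M.det = -(6 * Q + 2)) (h : S ⊆ {x | M.mulVec x + b ∈ TT 1}) :
    volume S ≤ ENNReal.ofReal (8 / 3 * (1 / (6 * Q + 2))) := by
  refine le_trans (measure_mono h) ?_
  rw [vol_preimage_matrix _ _ (by rw [hM]; linarith), hM]
  have h1 := vol_TT_le (h := 1) zero_le_one
  refine le_trans (mul_le_mul_right h1 _) ?_
  rw [← ENNReal.ofReal_mul (by positivity)]
  apply ENNReal.ofReal_le_ofReal
  rw [abs_inv, abs_neg, abs_of_pos (by linarith : (0 : ℝ) < 6 * Q + 2)]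
  apply le_of_eq
  ring

theorem vol_triC_le {Q : ℝ} (hQ : 1 < Q) :
    volume (triC Q) ≤ ENNReal.ofReal (8 / 3 * ((3 * Q + 3) / (3 * Q + 1))) := by
  have hsub : triC Q ⊆ TT 1 ∪ (({x | x ∈ triC Q ∧ 1 ≤ -x 0 - x 1 - x 2} ∪
      {x | x ∈ triC Q ∧ 1 ≤ -x 0 + x 1 + x 2}) ∪
      ({x | x ∈ triC Q ∧ 1 ≤ x 0 - x 1 + x 2} ∪ {x | x ∈ triC Q ∧ 1 ≤ x 0 + x 1 - x 2})) := by
    intro x hx
    by_cases h1 : 1 ≤ -x 0 - x 1 - x 2
    · exact Or.inr (Or.inl (Or.inl ⟨hx, h1⟩))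
    by_cases h2 : 1 ≤ -x 0 + x 1 + x 2
    · exact Or.inr (Or.inl (Or.inr ⟨hx, h2⟩))
    by_cases h3 : 1 ≤ x 0 - x 1 + x 2
    · exact Or.inr (Or.inr (Or.inl ⟨hx, h3⟩))
    by_cases h4 : 1 ≤ x 0 + x 1 - x 2
    · exact Or.inr (Or.inr (Or.inr ⟨hx, h4⟩))
    · push Not at h1 h2 h3 h4
      exact Or.inl ⟨h1.le, h2.le, h3.le, h4.le⟩
  have v0 : volume (TT 1) ≤ ENNReal.ofReal (8 / 3) := by
    have := vol_TT_le (h := 1) zero_le_one
    simpa using this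
  have v1 : volume {x | x ∈ triC Q ∧ 1 ≤ -x 0 - x 1 - x 2} ≤
      ENNReal.ofReal (8 / 3 * (1 / (6 * Q + 2))) := by
    apply vol_pyr Q hQ _ !![1 - (2 * Q + 1), -(2 * Q + 1), -(2 * Q + 1);
      -(2 * Q + 1), 1 - (2 * Q + 1), -(2 * Q + 1); -(2 * Q + 1), -(2 * Q + 1), 1 - (2 * Q + 1)]
      ![-(2 * Q + 1), -(2 * Q + 1), -(2 * Q + 1)]
    · rw [Matrix.det_fin_three]
      simp
      ring
    · rintro x ⟨⟨⟨h1, h2, h3⟩, ⟨h4, h5, h6⟩, ⟨h7, h8, h9⟩, ⟨h10, h11, h12⟩⟩, h⟩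
      simp only [Set.mem_ofPred_eq, TT, Matrix.mulVec, dotProduct, Fin.sum_univ_three,
        Pi.add_apply]
      simp
      refine ⟨?_, ?_, ?_, ?_⟩ <;> nlinarith
  have v2 : volume {x | x ∈ triC Q ∧ 1 ≤ -x 0 + x 1 + x 2} ≤
      ENNReal.ofReal (8 / 3 * (1 / (6 * Q + 2))) := by
    apply vol_pyr Q hQ _ !![1 - (2 * Q + 1), (2 * Q + 1), (2 * Q + 1);
      (2 * Q + 1), 1 - (2 * Q + 1), -(2 * Q + 1); (2 * Q + 1), -(2 * Q + 1), 1 - (2 * Q + 1)]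
      ![-(2 * Q + 1), (2 * Q + 1), (2 * Q + 1)]
    · rw [Matrix.det_fin_three]
      simp
      ring
    · rintro x ⟨⟨⟨h1, h2, h3⟩, ⟨h4, h5, h6⟩, ⟨h7, h8, h9⟩, ⟨h10, h11, h12⟩⟩, h⟩
      simp only [Set.mem_ofPred_eq, TT, Matrix.mulVec, dotProduct, Fin.sum_univ_three,
        Pi.add_apply]
      simp
      refine ⟨?_, ?_, ?_, ?_⟩ <;> nlinarith
  have v3 : volume {x | x ∈ triC Q ∧ 1 ≤ x 0 - x 1 + x 2} ≤
      ENNReal.ofReal (8 / 3 * (1 / (6 * Q + 2))) := by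
    apply vol_pyr Q hQ _ !![1 - (2 * Q + 1), (2 * Q + 1), -(2 * Q + 1);
      (2 * Q + 1), 1 - (2 * Q + 1), (2 * Q + 1); -(2 * Q + 1), (2 * Q + 1), 1 - (2 * Q + 1)]
      ![(2 * Q + 1), -(2 * Q + 1), (2 * Q + 1)]
    · rw [Matrix.det_fin_three]
      simp
      ring
    · rintro x ⟨⟨⟨h1, h2, h3⟩, ⟨h4, h5, h6⟩, ⟨h7, h8, h9⟩, ⟨h10, h11, h12⟩⟩, h⟩
      simp only [Set.mem_ofPred_eq, TT, Matrix.mulVec, dotProduct, Fin.sum_univ_three,
        Pi.add_apply]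
      simp
      refine ⟨?_, ?_, ?_, ?_⟩ <;> nlinarith
  have v4 : volume {x | x ∈ triC Q ∧ 1 ≤ x 0 + x 1 - x 2} ≤
      ENNReal.ofReal (8 / 3 * (1 / (6 * Q + 2))) := by
    apply vol_pyr Q hQ _ !![1 - (2 * Q + 1), -(2 * Q + 1), (2 * Q + 1);
      -(2 * Q + 1), 1 - (2 * Q + 1), (2 * Q + 1); (2 * Q + 1), (2 * Q + 1), 1 - (2 * Q + 1)]
      ![(2 * Q + 1), (2 * Q + 1), -(2 * Q + 1)]
    · rw [Matrix.det_fin_three]
      simp
      ring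
    · rintro x ⟨⟨⟨h1, h2, h3⟩, ⟨h4, h5, h6⟩, ⟨h7, h8, h9⟩, ⟨h10, h11, h12⟩⟩, h⟩
      simp only [Set.mem_ofPred_eq, TT, Matrix.mulVec, dotProduct, Fin.sum_univ_three,
        Pi.add_apply]
      simp
      refine ⟨?_, ?_, ?_, ?_⟩ <;> nlinarith
  have hq : 0 < 6 * Q + 2 := by linarith
  have hq1 : (0 : ℝ) ≤ 8 / 3 * (1 / (6 * Q + 2)) := by positivity
  refine (measure_mono hsub).trans ?_
  refine (measure_union_le _ _).trans ?_
  refine (add_le_add v0 ((measure_union_le _ _).trans (add_le_add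
    ((measure_union_le _ _).trans (add_le_add v1 v2))
    ((measure_union_le _ _).trans (add_le_add v3 v4))))).trans ?_
  rw [← ENNReal.ofReal_add hq1 hq1, ← ENNReal.ofReal_add (by positivity) (by positivity),
    ← ENNReal.ofReal_add (by norm_num) (by positivity)]
  apply ENNReal.ofReal_le_ofReal
  apply le_of_eq
  have h3 : 3 * Q + 1 ≠ 0 := by linarith
  have h6 : 6 * Q + 2 ≠ 0 := hq.ne'
  field_simp
  ring

theorem vol_triakis_le {Q : ℝ} (hQ : 1 < Q) :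
    volume (triakis Q) ≤ ENNReal.ofReal (8 / 3 * ((3 * Q + 3) / (3 * Q + 1))) := by
  have h := (PiLp.volume_preserving_ofLp (Fin 3)).measure_preimage (s := triC Q) ?_
  · have h2 : triakis Q ⊆ (WithLp.ofLp : E3 → (Fin 3 → ℝ)) ⁻¹' triC Q := fun v hv => hv
    refine (measure_mono h2).trans ?_
    rw [h]
    exact vol_triC_le hQ
  · apply MeasurableSet.nullMeasurableSet
    apply IsClosed.measurableSet
    unfold triC InK
    repeat' apply IsClosed.and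
    all_goals exact isClosed_le (by fun_prop) (by fun_prop)

end Pool.Agent.Helper58.KB
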